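import Pool.Agent.Lib.MP_aa40d3_nt.NS.Stmt
import Pool.Agent.Lib.MP_aa40d3_nt.GR.ExtP

/-! Local monodromy along all paths lies in the normal closure of the standard loops. -/

open Matrix Set Filter Topology
open scoped Matrix.Norms.Operator

namespace Pool.Agent.GR.NS

variable {n r : ℕ}

theorem loc_aux {t : Fin n → ℂ} (A : Fin n → Mat r) {h : ℝ} (hh : ∀ i, (t i).im ≠ h) {x : ℂ}
    (hx : ∀ i, (t i).re = x.re → (t i).im < min h x.im ∨ max h x.im < (t i).im) (c : ℝ) :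
    ∀ᶠ y in 𝓝 x, TT t A (y.re, h) (y.re, y.im) * TT t A (c, h) (y.re, h) =
      TU t A x y * (TT t A (x.re, h) (x.re, x.im) * TT t A (c, h) (x.re, h)) := by
  have hlt : ∀ a b : ℝ, a < b → ∀ᶠ ε in 𝓝 (0 : ℝ), a + ε < b := fun a b hab =>
    ContinuousAt.eventually_lt (f := fun ε : ℝ => a + ε) (g := fun _ => b) (by fun_prop)
      continuousAt_const (by simpa using hab)
  have hev : ∀ᶠ ε in 𝓝 (0 : ℝ), ∀ i, pp t i ∉ Icc (x.re - ε) (x.re + ε) ×ˢ
      Icc (min h x.im - ε) (max h x.im + ε) := by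
    refine eventually_all.2 fun i => ?_
    rcases lt_trichotomy (t i).re x.re with h1 | h1 | h1
    · filter_upwards [hlt _ _ h1] with ε hε hm
      have := hm.1.1
      simp only [pp] at this
      linarith
    · rcases hx i h1 with h2 | h2
      · filter_upwards [hlt _ _ h2] with ε hε hm
        have := hm.2.1
        simp only [pp] at this
        linarith
      · filter_upwards [hlt _ _ h2] with ε hε hm
        have := hm.2.2
        simp only [pp] at this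
        linarith
    · filter_upwards [hlt _ _ h1] with ε hε hm
      have := hm.1.2
      simp only [pp] at this
      linarith
  obtain ⟨ε, hfree, hε⟩ : ∃ ε : ℝ, (∀ i, pp t i ∉ Icc (x.re - ε) (x.re + ε) ×ˢ
      Icc (min h x.im - ε) (max h x.im + ε)) ∧ 0 < ε :=
    ((hev.filter_mono nhdsWithin_le_nhds).and (self_mem_nhdsWithin (s := Ioi (0 : ℝ)))).exists
  have h1 := min_le_left h x.im
  have h2 := min_le_right h x.im
  have h3 := le_max_left h x.im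
  have h4 := le_max_right h x.im
  filter_upwards [Metric.ball_mem_nhds x hε] with y hy
  rw [Metric.mem_ball, dist_eq_norm] at hy
  have h5 := abs_lt.1 ((Complex.abs_re_le_norm (y - x)).trans_lt hy)
  have h6 := abs_lt.1 ((Complex.abs_im_le_norm (y - x)).trans_lt hy)
  rw [Complex.sub_re] at h5
  rw [Complex.sub_im] at h6
  have h7 := rectT_TT t A _ _ _ _ hfree (x.re, h)
    ⟨⟨by linarith, by linarith⟩, by linarith, by linarith⟩ (y.re, h)
    ⟨⟨by linarith [h5.1], by linarith [h5.2]⟩, by linarith, by linarith⟩ (y.re, y.im)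
    ⟨⟨by linarith [h5.1], by linarith [h5.2]⟩, by linarith [h6.1], by linarith [h6.2]⟩
  have h8 := rectT_TT t A _ _ _ _ hfree (x.re, h)
    ⟨⟨by linarith, by linarith⟩, by linarith, by linarith⟩ (x.re, x.im)
    ⟨⟨by linarith, by linarith⟩, by linarith, by linarith⟩ (y.re, y.im)
    ⟨⟨by linarith [h5.1], by linarith [h5.2]⟩, by linarith [h6.1], by linarith [h6.2]⟩
  rw [← ext_line A hh c x.re y.re, ← mul_assoc, h7, ← h8, mul_assoc]
  rfl

theorem loc_bot {t : Fin n → ℂ} (A : Fin n → Mat r) {H : ℝ} (hb : InBox (pp t) H) {x : ℂ}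
    (hx : ∀ i, (t i).re = x.re → x.im < (t i).im) : ∀ᶠ y in 𝓝 x,
      Ybot (TT t A) H (y.re, y.im) = TU t A x y * Ybot (TT t A) H (x.re, x.im) :=
  loc_aux A (h := -H) (rect_bot hb)
    (fun i hi => Or.inr (max_lt (abs_lt.1 (hb i).2).1 (hx i hi))) (-H)

theorem loc_top {t : Fin n → ℂ} (A : Fin n → Mat r) {H : ℝ} (hb : InBox (pp t) H) {x : ℂ}
    (hx : ∀ i, (t i).re = x.re → (t i).im < x.im) : ∀ᶠ y in 𝓝 x,
      Ytop (TT t A) H (y.re, y.im) = TU t A x y * Ytop (TT t A) H (x.re, x.im) := by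
  filter_upwards [loc_aux A (h := H) (rect_top hb)
    (fun i hi => Or.inl (lt_min (abs_lt.1 (hb i).2).2 (hx i hi))) (-H)] with y hy
  rw [Ytop, Ytop, hy, mul_assoc]

open Classical in
/-- A determination of the fundamental solution at every point. -/
noncomputable def Zc (t : Fin n → ℂ) (A : Fin n → Mat r) (H : ℝ) (c : (Mat r)ˣ) (x : ℂ) :
    (Mat r)ˣ :=
  if ∀ i, (t i).re = x.re → x.im < (t i).im then Ybot (TT t A) H (x.re, x.im)
  else Ytop (TT t A) H (x.re, x.im) * c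

theorem loc_Zc [NeZero r] {t : Fin n → ℂ} (ht : Function.Injective fun i => (t i).re)
    (A : Fin n → Mat r) {H : ℝ} (hb : InBox (pp t) H) {Ω : Set ℂ} {Λ : Subgroup (Mat r)ˣ}
    {c : (Mat r)ˣ} (hΛ : ∀ y ∈ Ω, (∀ j, (t j).re ≠ y.re) → ∃ l ∈ Λ,
      Ybot (TT t A) H (y.re, y.im) = Ytop (TT t A) H (y.re, y.im) * c * l) {x : ℂ}
    (hx : ∀ i, x ≠ t i) :
    ∀ᶠ y in 𝓝 x, y ∈ Ω → ∃ l ∈ Λ, Zc t A H c y = TU t A x y * Zc t A H c x * l := by
  by_cases h : ∀ i, (t i).re = x.re → x.im < (t i).im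
  · filter_upwards [loc_bot A hb h, extP_open t 1 (by simpa using h)] with y h1 h2 _
    refine ⟨1, Λ.one_mem, ?_⟩
    rw [Zc, Zc, if_pos h, if_pos (by simpa using h2), h1, mul_one]
  · have h' : ∀ i, (t i).re = x.re → (t i).im < x.im := by
      push Not at h
      obtain ⟨i, h1, h2⟩ := h
      intro j hj
      have hij : j = i := ht (hj.trans h1.symm)
      subst hij
      exact lt_of_le_of_ne h2 fun h3 => hx j (Complex.ext h1.symm h3.symm)
    filter_upwards [loc_top A hb h', extP_open t (-1) (by simpa using h')] with y h1 h2 hy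
    have h3 : ∀ i, (t i).re = y.re → (t i).im < y.im := by simpa using h2
    by_cases h4 : ∀ i, (t i).re = y.re → y.im < (t i).im
    · obtain ⟨l, hl, e⟩ := hΛ y hy fun j hj => (h3 j hj).not_gt (h4 j hj)
      refine ⟨l, hl, ?_⟩
      rw [Zc, Zc, if_pos h4, if_neg h, e, h1, mul_assoc (TU t A x y)]
    · refine ⟨1, Λ.one_mem, ?_⟩
      rw [Zc, Zc, if_neg h4, if_neg h, h1, mul_one, mul_assoc]

theorem cont_inv [NeZero r] {t : Fin n → ℂ} (ht : Function.Injective fun i => (t i).re)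
    (A : Fin n → Mat r) {H : ℝ} (hb : InBox (pp t) H) {Ω : Set ℂ} (hΩ : ∀ y ∈ Ω, ∀ j, y ≠ t j)
    {Λ : Subgroup (Mat r)ˣ} {c : (Mat r)ˣ} (hΛ : ∀ y ∈ Ω, (∀ j, (t j).re ≠ y.re) → ∃ l ∈ Λ,
      Ybot (TT t A) H (y.re, y.im) = Ytop (TT t A) H (y.re, y.im) * c * l)
    {p q : ℂ × Mat r} (h : Cont t A Ω p q) : ∃ l ∈ Λ,
      (Zc t A H c q.1)⁻¹.val * q.2 = l.val * ((Zc t A H c p.1)⁻¹.val * p.2) := by
  have tr : ∀ {a b d : Mat r}, (∃ l ∈ Λ, b = l.val * a) → (∃ l ∈ Λ, d = l.val * b) →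
      ∃ l ∈ Λ, d = l.val * a := by
    rintro a b d ⟨l, hl, rfl⟩ ⟨l', hl', rfl⟩
    exact ⟨l' * l, Λ.mul_mem hl' hl, by rw [Units.val_mul, mul_assoc]⟩
  induction h with
  | refl => exact ⟨1, Λ.one_mem, by rw [Units.val_one, one_mul]⟩
  | @tail p' q' _ hs ih =>
    refine tr ih ?_
    obtain ⟨z, ρ, F, h1, h2, h3, h4, h5, h6⟩ := hs
    rw [← h5, ← h6]
    refine (convex_ball z ρ).isPreconnected.induction₂
      (fun a b => ∃ l ∈ Λ, (Zc t A H c b)⁻¹.val * F b = l.val * ((Zc t A H c a)⁻¹.val * F a))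
      (fun x hx => ?_) (fun _ _ _ _ _ _ k1 k2 => tr k1 k2) ?_ h3 h4
    · filter_upwards [nhdsWithin_le_nhds (loc_Zc ht A hb hΛ (hΩ x (h1 hx))), self_mem_nhdsWithin]
        with y hy hyb
      obtain ⟨l, hl, e⟩ := hy (h1 hyb)
      have hseg := (convex_ball z ρ).segment_subset hx hyb
      have h7 : F y = T t A x y * F x := T_unique (fun i hi => hΩ _ (h1 (hseg hi)) i rfl) F
        fun w hw => hasDerivAt_mat.2 (h2 w (hseg hw))
      refine ⟨l⁻¹, Λ.inv_mem hl, ?_⟩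
      rw [e, h7, ← val_TU, _root_.mul_inv_rev, _root_.mul_inv_rev, Units.val_mul, Units.val_mul,
        mul_assoc, mul_assoc, Units.inv_mul_cancel_left]
    · rintro a b - - ⟨l, hl, e⟩
      exact ⟨l⁻¹, Λ.inv_mem hl, by rw [e, Units.inv_mul_cancel_left]⟩

theorem Ybot_Vp {G : Type*} [Group G] {T : ℝ × ℝ → ℝ × ℝ → G} {pts : Fin n → ℝ × ℝ} {H : ℝ}
    (hT : RectT T pts) (hb : InBox pts H) {q : ℝ × ℝ} (hq : ∀ j, (pts j).1 ≠ q.1) :
    Ybot T H q = Ytop T H q * ((Vp T H (-H))⁻¹ * Vp T H q.1) := by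
  have hH' : ∀ j, (pts j).1 ≠ -H := fun j => (abs_lt.1 (hb j).1).1.ne'
  have h1 := rect_h hT (rect_top hb) q.1 (-H) q.1
  have h2 : T (q.1, H) q * T (q.1, -H) (q.1, H) = T (q.1, -H) q := rect_v hT hq (-H) H q.2
  rw [rect_one hT (a := (q.1, H)) (fun j e => hq j (Prod.ext_iff.1 e).1),
    mul_eq_one_iff_eq_inv] at h1
  rw [Ybot, Ytop, Vp, Vp, rect_one hT (a := (-H, H)) (fun j e => hH' j (congrArg Prod.fst e)),
    rect_one hT (a := (-H, -H)) (fun j e => hH' j (congrArg Prod.fst e)), h1, ← h2]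
  group

theorem locMon_le [NeZero r] {t : Fin n → ℂ} (ht : Function.Injective fun i => (t i).re)
    (A : Fin n → Mat r) {H : ℝ} (hH : 0 ≤ H) (hb : InBox (pp t) H) :
    ∃ ε : ℝ, 0 < ε ∧ ∀ x₀ : ℂ, ∃ c : (Mat r)ˣ, ∀ (S : Finset (Fin n)) (N : Subgroup (Mat r)ˣ),
      (∀ γ ∈ Subgroup.closure (Set.range (vt (TT t A) (pp t) H)), ∀ i ∈ S,
        γ * vt (TT t A) (pp t) H i * γ⁻¹ ∈ N) → ∀ h ∈ LocMon t A x₀ ε S, c⁻¹ * h * c ∈ N := by
  classical
  have hT := rectT_TT t A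
  obtain ⟨ε, hε, hv⟩ : ∃ ε : ℝ, 0 < ε ∧ ∀ i lo hi, (t i).re - ε ≤ lo → lo < (t i).re →
      (t i).re < hi → hi ≤ (t i).re + ε → ValidAt (fun j => (pp t j).1) i lo hi := by
    choose e he hv using fun i => exists_validAt ht i
    have h1 : ∀ᶠ ε in 𝓝[>] (0 : ℝ), ∀ i, ε < e i := eventually_all.2 fun i =>
      (eventually_lt_nhds (he i)).filter_mono nhdsWithin_le_nhds
    obtain ⟨ε, h2, h3⟩ := (h1.and self_mem_nhdsWithin).exists
    exact ⟨ε, h3, fun i lo hi a b c d => hv i lo hi (by linarith [h2 i]) b c (by linarith [h2 i])⟩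
  set g := vt (TT t A) (pp t) H with hg
  set Γ := Subgroup.closure (Set.range g) with hΓ
  have hl : ∀ l : List (Fin n), (l.map g).prod ∈ Γ := fun l => Γ.list_prod_mem fun x hx => by
    obtain ⟨a, -, rfl⟩ := List.mem_map.1 hx
    exact Subgroup.subset_closure ⟨a, rfl⟩
  refine ⟨ε, hε, fun x₀ => ⟨Zc t A H 1 x₀, fun S N hN h hh => ?_⟩⟩
  have hle : LocMon t A x₀ ε S ≤ N.comap (MulAut.conj (Zc t A H 1 x₀)⁻¹).toMonoidHom := by
    refine (Subgroup.closure_le _).2 ?_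
    rintro w ⟨i, hi, x, Y, k1, k2⟩
    have hval := hv i ((t i).re - ε) ((t i).re + ε) le_rfl (by linarith) (by linarith) le_rfl
    have hre : ∀ y ∈ Metric.ball (t i) ε \ {t i}, (t i).re - ε < y.re ∧ y.re < (t i).re + ε := by
      intro y hy
      have h1 := hy.1
      rw [Metric.mem_ball, dist_eq_norm] at h1
      have h2 := abs_lt.1 ((Complex.abs_re_le_norm (y - t i)).trans_lt h1)
      rw [Complex.sub_re] at h2
      exact ⟨by linarith [h2.1], by linarith [h2.2]⟩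
    have hlo : ∀ j, (pp t j).1 ≠ (t i).re - ε := fun j e => by
      by_cases hj : j = i
      · subst hj
        simp only [pp] at e
        linarith
      · exact hval.2.2 j hj ⟨e.ge, e.le.trans (by linarith)⟩
    set c := (Vp (TT t A) H (-H))⁻¹ * Vp (TT t A) H ((t i).re - ε) with hc
    have hcΓ : c ∈ Γ := by
      obtain ⟨l, e⟩ := Ybot_eq_Ytop hT hb hH ht (q := ((t i).re - ε, 0)) hlo
      rw [Ybot_Vp hT hb hlo, mul_right_inj] at e
      exact (show c = _ from e) ▸ hl l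
    obtain ⟨l, hlΓ, e1⟩ := cont_inv ht A hb (fun y hy => hy) (Λ := Γ) (c := 1) (fun y _ hy => by
      obtain ⟨l, e⟩ := Ybot_eq_Ytop hT hb hH ht (q := (y.re, y.im)) hy
      exact ⟨_, hl l, by rw [mul_one, e]⟩) k1
    obtain ⟨μ, ⟨m, rfl⟩, e2⟩ := cont_inv ht A hb (fun y hy j e => by
      by_cases hj : j = i
      · exact hy.2 (hj ▸ e)
      · exact hval.2.2 j hj ⟨by simpa [pp, ← e] using (hre y hy).1.le,
          by simpa [pp, ← e] using (hre y hy).2.le⟩) (Λ := Subgroup.zpowers (g i)) (c := c)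
      (fun y hy hne => by
        rw [Ybot_Vp hT hb (q := (y.re, y.im)) hne]
        obtain ⟨h1, h2⟩ := hre y hy
        rcases lt_or_gt_of_ne (hne i) with h3 | h3
        · refine ⟨g i, Subgroup.mem_zpowers _, ?_⟩
          rw [hg, vt_eq hT hb (hv i ((t i).re - ε) y.re le_rfl (by linarith) h3 h2.le), hc]
          group
        · refine ⟨1, one_mem _, ?_⟩
          rw [mul_one, hc, (recta_valid hT hb hval
            (hv i y.re ((t i).re + ε) h1.le h3 (by linarith) le_rfl)).1 h1.le]) k2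
    obtain ⟨c', hc', e3⟩ : ∃ c' ∈ Γ, Zc t A H c x = Zc t A H 1 x * c' := by
      by_cases h1 : ∀ j, (t j).re = x.re → x.im < (t j).im
      · exact ⟨1, Γ.one_mem, by rw [Zc, Zc, if_pos h1, if_pos h1, mul_one]⟩
      · exact ⟨c, hcΓ, by rw [Zc, Zc, if_neg h1, if_neg h1, mul_one]⟩
    have e4 : Y = (Zc t A H 1 x * l * (Zc t A H 1 x₀)⁻¹).val := by
      rw [Units.val_mul, Units.val_mul, mul_assoc, ← mul_one (Zc t A H 1 x₀)⁻¹.val, ← e1,
        Units.mul_inv_cancel_left]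
    have e5 : (Zc t A H c x)⁻¹ * (Zc t A H 1 x * l * (Zc t A H 1 x₀)⁻¹ * w) =
        g i ^ m * ((Zc t A H c x)⁻¹ * (Zc t A H 1 x * l * (Zc t A H 1 x₀)⁻¹)) := by
      apply Units.ext
      rw [Units.val_mul, Units.val_mul, ← e4, Units.val_mul, Units.val_mul, ← e4]
      exact e2
    have e6 : (Zc t A H 1 x₀)⁻¹ * w * (Zc t A H 1 x₀)⁻¹⁻¹ =
        ((l⁻¹ * c') * g i * (l⁻¹ * c')⁻¹) ^ m := by
      rw [conj_zpow]
      have e7 : w = ((Zc t A H c x)⁻¹ * (Zc t A H 1 x * l * (Zc t A H 1 x₀)⁻¹))⁻¹ *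
          (g i ^ m * ((Zc t A H c x)⁻¹ * (Zc t A H 1 x * l * (Zc t A H 1 x₀)⁻¹))) := by
        rw [← e5]
        group
      rw [e7, e3]
      group
    change (Zc t A H 1 x₀)⁻¹ * w * (Zc t A H 1 x₀)⁻¹⁻¹ ∈ N
    rw [e6]
    exact N.zpow_mem (hN _ (Γ.mul_mem (Γ.inv_mem hlΓ) hc') i hi) m
  have h1 : (Zc t A H 1 x₀)⁻¹ * h * (Zc t A H 1 x₀)⁻¹⁻¹ ∈ N := hle hh
  rwa [inv_inv] at h1

theorem Step.aff {t t' : Fin n → ℂ} {c b : ℂ} (hc : c ≠ 0) (ht : ∀ i, t i = c * t' i + b)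
    {A : Fin n → Mat r} {Ω Ω' : Set ℂ} (hΩ : ∀ u, c * u + b ∈ Ω → u ∈ Ω') {p q : ℂ × Mat r}
    (h : Step t A Ω p q) : Step t' A Ω' (c⁻¹ * (p.1 - b), p.2) (c⁻¹ * (q.1 - b), q.2) := by
  obtain ⟨z, ρ, F, h1, h2, h3, h4, h5, h6⟩ := h
  have hn := norm_pos_iff.2 hc
  have hb : ∀ u, u ∈ Metric.ball (c⁻¹ * (z - b)) (‖c‖⁻¹ * ρ) ↔ c * u + b ∈ Metric.ball z ρ := by
    intro u
    rw [Metric.mem_ball, Metric.mem_ball, dist_eq_norm, dist_eq_norm,
      show c * u + b - z = c * (u - c⁻¹ * (z - b)) by field_simp; ring, norm_mul,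
      lt_inv_mul_iff₀ hn]
  have he : ∀ x : ℂ, c * (c⁻¹ * (x - b)) + b = x := fun x => by field_simp; ring
  refine ⟨c⁻¹ * (z - b), ‖c‖⁻¹ * ρ, fun u => F (c * u + b), fun u hu => hΩ u (h1 ((hb u).1 hu)),
    fun u hu a a' => ?_, (hb _).2 (by rwa [he]), (hb _).2 (by rwa [he]),
    (congrArg F (he _)).trans h5, (congrArg F (he _)).trans h6⟩
  have h7 : HasDerivAt (fun u : ℂ => c * u + b) c u := by
    simpa using ((hasDerivAt_id u).const_mul c).add_const b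
  have h8 : ∑ i, (u - t' i)⁻¹ • A i = c • ∑ i, (c * u + b - t i)⁻¹ • A i := by
    rw [Finset.smul_sum]
    refine Finset.sum_congr rfl fun i _ => ?_
    rw [ht, show c * u + b - (c * t' i + b) = c * (u - t' i) by ring, mul_inv, smul_smul,
      mul_inv_cancel_left₀ hc]
  rw [h8, smul_mul_assoc, Matrix.smul_apply, smul_eq_mul, mul_comm]
  exact (h2 _ ((hb u).1 hu) a a').comp u h7

theorem Cont.aff {t t' : Fin n → ℂ} {c b : ℂ} (hc : c ≠ 0) (ht : ∀ i, t i = c * t' i + b)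
    {A : Fin n → Mat r} {Ω Ω' : Set ℂ} (hΩ : ∀ u, c * u + b ∈ Ω → u ∈ Ω') {p q : ℂ × Mat r}
    (h : Cont t A Ω p q) : Cont t' A Ω' (c⁻¹ * (p.1 - b), p.2) (c⁻¹ * (q.1 - b), q.2) := by
  induction h with
  | refl => exact Relation.ReflTransGen.refl
  | tail _ hs ih => exact Relation.ReflTransGen.tail ih (hs.aff hc ht hΩ)

theorem locMon_aff {t t' : Fin n → ℂ} {c b : ℂ} (hc : c ≠ 0) (ht : ∀ i, t i = c * t' i + b)
    (A : Fin n → Mat r) (x₀ : ℂ) (ε : ℝ) (S : Finset (Fin n)) :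
    LocMon t A x₀ (‖c‖ * ε) S ≤ LocMon t' A (c⁻¹ * (x₀ - b)) ε S := by
  refine Subgroup.closure_mono ?_
  rintro w ⟨i, hi, x, Y, k1, k2⟩
  refine ⟨i, hi, c⁻¹ * (x - b), Y,
    k1.aff hc ht (Ω' := {z | ∀ j, z ≠ t' j})
      fun u (hu : c * u + b ∈ {z | ∀ j, z ≠ t j}) j e => hu j (by rw [ht, e]),
    k2.aff hc ht (Ω' := Metric.ball (t' i) ε \ {t' i})
      fun u (hu : c * u + b ∈ Metric.ball (t i) (‖c‖ * ε) \ {t i}) =>
        ⟨?_, fun e => hu.2 (by rw [ht, show u = t' i from e]; rfl)⟩⟩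
  have h1 := hu.1
  rwa [Metric.mem_ball, dist_eq_norm, ht, show c * u + b - (c * t' i + b) = c * (u - t' i) by ring,
    norm_mul, mul_lt_mul_iff_right₀ (norm_pos_iff.2 hc), ← dist_eq_norm] at h1

end Pool.Agent.GR.NS
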