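import Pool.Agent.Lib.MP_aa40d3_nt.NS.Grp
import Pool.Agent.Lib.MP_aa40d3_nt.NS.Mon
import Pool.Agent.Lib.MP_aa40d3_nt.NP.Pts

/-! All but `k(r)` generic singular points have a finite local monodromy group. -/

open Polynomial Matrix Set Filter Topology
open scoped Matrix.Norms.Operator

namespace Pool.Agent.GR.NS

open NP

theorem group_ncl (r : ℕ) [NeZero r] : ∃ k : ℕ, ∀ (n : ℕ) (Mov : Finset (Fin n))
    (g : Fin n → GLr r) (ρ : Fin n → ℝ), Function.Injective ρ →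
    (∀ a, QU (g a).val) → IrrT g → LoopsQ Mov ρ g →
    ∃ S ⊆ Mov, (Mov \ S).card ≤ k ∧ ∃ N : Subgroup (GLr r), Finite N ∧
      (∀ γ ∈ Subgroup.closure (Set.range g), ∀ i ∈ S, γ * g i * γ⁻¹ ∈ N) ∧
      ((∀ z : Mt r, (∀ γ ∈ N, γ.val * z = z * γ.val) → Scl z) →
        Finite (Subgroup.closure (Set.range g))) := by
  classical
  obtain ⟨k, hk⟩ := finite_ncl r
  refine ⟨k, fun n Mov g ρ hρ hfo hI ho => ?_⟩
  obtain ⟨L0, h1, h2⟩ := exists_lowerL hρ Finset.univ fun _ _ _ _ => Finset.mem_univ _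
  have h0 : L0.Nodup := h1.1.imp fun hab e => hab.ne (congrArg _ e)
  have hall : ∀ a, a ∈ L0 := fun a => List.mem_toFinset.1 (h2 ▸ Finset.mem_univ a)
  set Γ := Subgroup.closure (Set.range g) with hΓ
  let g' : Fin n → Γ := fun a => ⟨g a, Subgroup.subset_closure ⟨a, rfl⟩⟩
  have hg : Subgroup.closure (Set.range g') = ⊤ := by
    apply Subgroup.map_injective Γ.subtype_injective
    rw [MonoidHom.map_closure, ← Set.range_comp, ← MonoidHom.range_eq_map, Subgroup.range_subtype]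
    rfl
  have hl : ∀ x, IsLoop Mov L0 g' x → QU (incl Γ x) := fun x hx => by
    obtain ⟨l, R, h, k1, k2, k3⟩ := hx.map Γ.subtype
    obtain ⟨μ, a1, a2, rfl⟩ := k1.low h1
    have k4 : QU ((l.map (mvTL μ ρ (Γ.subtype ∘ g'))).prod).val := ho μ a1 l (link_left a2) k2
    rwa [← k3] at k4
  obtain ⟨S, k1, k2, k3⟩ := hk n Mov L0 Γ g' (incl Γ) h0 hall hg (incl_inj Γ)
    (fun U hU => hI U fun a => hU (g' a)) hfo hl
  have hn := ncl_normal g' S
  refine ⟨S, k1, k2, (ncl g' S).map Γ.subtype,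
    Finite.of_equiv _ ((ncl g' S).equivMapOfInjective _ Γ.subtype_injective).toEquiv,
    fun γ hγ i hi => ⟨_, hn.conj_mem _ (mem_ncl hi) ⟨γ, hγ⟩, rfl⟩, fun hz => ?_⟩
  choose e he0 he using fun a => isOfFinOrder_iff_pow_eq_one.1 (hfo a).det
  refine finite_of_comm (incl_inj Γ) (E := ∏ a, e a) (Finset.prod_pos fun a _ => he0 a)
    (fun x => ?_) (ncl g' S) fun z h => hz z ?_
  · have hx : x ∈ Subgroup.closure (Set.range g') := hg ▸ Subgroup.mem_top x
    induction hx using Subgroup.closure_induction with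
    | mem y hy =>
      obtain ⟨a, rfl⟩ := hy
      obtain ⟨c, hc⟩ := Finset.dvd_prod_of_mem e (Finset.mem_univ a)
      rw [hc, pow_mul]
      exact (congrArg (· ^ c) (he a)).trans (one_pow c)
    | one => rw [map_one, det_one, one_pow]
    | mul y z _ _ hy hz => rw [map_mul, det_mul, mul_pow, hy, hz, one_mul]
    | inv y _ hy =>
      have h3 := congrArg (fun w => w.det ^ ∏ a, e a) (rep_mul_inv (incl Γ) y)
      simpa only [det_mul, mul_pow, hy, one_mul, det_one, one_pow] using h3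
  · rintro _ ⟨y, hy, rfl⟩
    exact h y hy

theorem coreS (r : ℕ) [NeZero r] : ∃ k : ℕ, ∀ (n : ℕ) (Mov : Finset (Fin n)) (t : Fin n → ℂ)
    (A : Fin n → Matrix (Fin r) (Fin r) ℂ), Gen Mov t → (Function.Injective fun i => (t i).re) →
    Irred t A → PCN t A → ∃ S ⊆ Mov, (Mov \ S).card ≤ k ∧ ∃ ε : ℝ, 0 < ε ∧ ∀ x₀ : ℂ,
      Finite (LocMon t A x₀ ε S) ∧ ∃ (N : Subgroup (GLr r)), LocMon t A x₀ ε S ≤ N ∧ Finite N ∧
        ((∀ z : Mt r, (∀ γ ∈ N, γ.val * z = z * γ.val) → Scl z) → AlgSol t A) := by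
  classical
  obtain ⟨k, hk⟩ := group_ncl r
  refine ⟨k, fun n Mov t A ht hre hpr hpc => ?_⟩
  obtain ⟨M, w, θ, hZ, hF, hG, hw, hA⟩ := exists_model4 ht (cycH_ne_zero_of_irred hpr) hpc
  obtain ⟨κ, H0, hκ, hH0, hc, hb⟩ := exists_core Mov t
  generalize hHe : (1 + κ) * H0 = H at hb
  have hH : 0 < H := hHe ▸ mul_pos (by linarith) hH0
  have hwt : (fun i => w (Sum.inl i)) = t := funext hw
  have hmon : mon2 M.toModel2 H (w, θ) = vt (TT t A) (pp t) H := by
    simp only [mon2, hwt, hA]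
  have hcham : w ∈ Cham M.m (fun i => (t i).re) H := by
    refine ⟨by rw [hwt]; exact hb, fun a b hab => ?_⟩
    rw [hw, hw]; exact hab
  have ho : LoopsQ Mov (fun i => (t i).re) (vt (TT t A) (pp t) H) := by
    intro μ hμ l hl hM
    have := path4 M hκ hH0 hHe.le hZ (by rw [hwt]; exact hc) μ hre
      (fun a b _ _ hab => by rw [hw, hw]; exact hab) hμ hl hM (Sl.refl Mov w) hcham hG hF
    rwa [hmon] at this
  have h1 : ∀ i, QU (vt (TT t A) (pp t) H i).val := fun i => by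
    have := arc4_single M hre i hcham hZ hG hF
    rwa [hmon] at this
  set U : Set ℂ := {x | ∀ i, x.im < (t i).im} with hU
  have hUo : IsOpen U := by
    rw [hU, ofPred_forall]
    exact isOpen_iInter_of_finite fun i => isOpen_lt Complex.continuous_im continuous_const
  have hUc : Convex ℝ U := by
    rw [hU, ofPred_forall]
    exact convex_iInter fun i => convex_halfSpace_im_lt _
  have hx₀ : cpt (-H, -H) ∈ U := fun i => by
    have := (hb i).2
    simp only [pp, cpt] at this ⊢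
    exact (abs_lt.1 this).1
  have hY : ∀ x ∈ U, (∀ i, x ≠ t i) ∧ (T t A (cpt (-H, -H)) x).det ≠ 0 ∧
      HasDerivAt (T t A (cpt (-H, -H))) (sys t A x * T t A (cpt (-H, -H)) x) x := by
    intro x hx
    refine ⟨fun i h => lt_irrefl _ (h ▸ hx i), ?_, hasDerivAt_T A fun i hi => ?_⟩
    · exact ((Matrix.isUnit_iff_isUnit_det _).1 (isUnit_Tr _)).ne_zero
    · exact lt_irrefl _ (hUc.segment_subset hx₀ hx hi i)
  have hext := extProp hre A hH.le hb
  have hi : IrrT (vt (TT t A) (pp t) H) :=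
    irrT_of_irredQ hpr h1 hUo hx₀ (T_self _ _ _) hY hext
  obtain ⟨S, k1, k2, N, k3, k4, k5⟩ := hk n Mov _ _ hre h1 hi ho
  obtain ⟨ε, hε, hle⟩ := locMon_le hre A hH.le hb
  refine ⟨S, k1, k2, ε, hε, fun x₀ => ?_⟩
  obtain ⟨c, hc'⟩ := hle x₀
  have hN : LocMon t A x₀ ε S ≤ N.map (MulAut.conj c).toMonoidHom := fun h hh =>
    ⟨_, hc' S N k4 h hh, by
      change c * (c⁻¹ * h * c) * c⁻¹ = h
      group⟩
  have hNf : Finite (N.map (MulAut.conj c).toMonoidHom) :=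
    Finite.of_equiv _ (N.equivMapOfInjective _ (MulAut.conj c).injective).toEquiv
  refine ⟨Finite.of_injective _ (Subgroup.inclusion_injective hN), _, hN, hNf, fun hz => ?_⟩
  have hfin := k5 fun z h => by
    obtain ⟨a, ha⟩ := hz (c.val * z * (c⁻¹).val) (by
      rintro _ ⟨γ, hγ, rfl⟩
      change (c * γ * c⁻¹).val * _ = _ * (c * γ * c⁻¹).val
      simp only [Units.val_mul, mul_assoc, Units.inv_mul_cancel_left]
      rw [← mul_assoc γ.val, h γ hγ, mul_assoc])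
    refine ⟨a, ?_⟩
    have h2 := congrArg (fun y => (c⁻¹).val * y * c.val) ha
    simpa only [mul_assoc, Units.inv_mul, mul_one, Units.inv_mul_cancel_left, mul_smul_comm,
      smul_mul_assoc, one_mul] using h2
  obtain ⟨ε', hε', hball⟩ := Metric.isOpen_iff.1 hUo _ hx₀
  refine ⟨cpt (-H, -H), ε', T t A (cpt (-H, -H)), hε', fun x hx => ?_, fun a b => ?_⟩
  · obtain ⟨h1, h2, h3⟩ := hY x (hball hx)
    exact ⟨h1, h2, hasDerivAt_mat.1 h3⟩
  · obtain ⟨P, hP, h⟩ := alg_of_finite hfin hext a b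
    exact ⟨P, hP, fun x hx => h x (hball hx)⟩

theorem finalS (r : ℕ) (hr : 1 ≤ r) : ∃ k : ℕ, ∀ (n : ℕ) (R : Type) [CommRing R]
    [Algebra.FiniteType ℤ R] (ι : R →+* ℂ), Function.Injective ι → ∀ (t : Fin n → R)
    (A : Fin n → Matrix (Fin r) (Fin r) R) (M : Finset (Fin n)) (P₀ : ℕ), Function.Injective t →
    (AlgebraicIndependent (IntermediateField.adjoin ℚ {x : ℂ | ∃ j, j ∉ M ∧ x = ι (t j)})
      fun i : M => ι (t i)) →
    Irred (fun i => ι (t i)) (fun i => (A i).map ι) →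
    (∀ p : ℕ, p.Prime → P₀ < p → ∀ m : Ideal R, m.IsMaximal → (p : R) ∈ m →
      NilCurv p (fun i => Ideal.Quotient.mk m (t i)) fun i => (A i).map (Ideal.Quotient.mk m)) →
    ∃ S ⊆ M, (M \ S).card ≤ k ∧ ∃ ε : ℝ, 0 < ε ∧ ∀ x₀ : ℂ,
      Finite (LocMon (fun i => ι (t i)) (fun i => (A i).map ι) x₀ ε S) ∧
      ((∃ z : Matrix (Fin r) (Fin r) ℂ, (∀ c : ℂ, z ≠ c • (1 : Matrix (Fin r) (Fin r) ℂ)) ∧
          ∀ g ∈ LocMon (fun i => ι (t i)) (fun i => (A i).map ι) x₀ ε S, g.val * z = z * g.val) ∨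
        ∀ φ : R →+* ℂ, AlgSol (fun i => φ (t i)) fun i => (A i).map φ) := by
  classical
  have : NeZero r := ⟨by omega⟩
  obtain ⟨k, hk⟩ := coreS r
  refine ⟨k, fun n R _ _ ι hι t A M P₀ ht hind hpr hp => ?_⟩
  have hinj : Function.Injective fun i => ι (t i) := hι.comp ht
  have hgen : Gen M fun i => ι (t i) :=
    ⟨(IntermediateField.adjoin ℚ {x : ℂ | ∃ j, j ∉ M ∧ x = ι (t j)}).toSubalgebra.toSubring,
      fun j hj => IntermediateField.subset_adjoin ℚ _ ⟨j, hj, rfl⟩, hind⟩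
  obtain ⟨t', c, hc, htt, hgen', hre⟩ := exists_rotation3 hinj hgen
  obtain ⟨S, k1, k2, ε, hε, k3⟩ := hk n M t' _ hgen' hre (hpr.aff hc htt)
    ((pcn_of_nil ι hι hp).aff hc htt)
  refine ⟨S, k1, k2, ‖c‖ * ε, mul_pos (norm_pos_iff.2 hc) hε, fun x₀ => ?_⟩
  obtain ⟨k4, N, k5, -, k6⟩ := k3 (c⁻¹ * (x₀ - 0))
  have hle := locMon_aff hc htt (fun i => (A i).map ι) x₀ ε S
  refine ⟨Finite.of_injective _ (Subgroup.inclusion_injective hle), ?_⟩
  rw [or_iff_not_imp_left]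
  intro hz φ
  refine AlgSol.spec ι φ hι t A (AlgSol.aff hc htt (k6 fun z h => ?_))
  by_contra hs
  exact hz ⟨z, fun a e => hs ⟨a, e⟩, fun g hg => h g (k5 (hle hg))⟩

end Pool.Agent.GR.NS
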