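import Pool.Agent.Lib.MP_aa40d3_nt.NP.AbsQ

/-! Tools for normal closures of generators. -/

open Matrix Polynomial

namespace Pool.Agent.GR.NS

open NP

variable {r n : ℕ} {G : Type} [Group G] {σ : G →* Mt r}

/-- The normal closure of the generators indexed by `S`. -/
def ncl (g : Fin n → G) (S : Finset (Fin n)) : Subgroup G :=
  Subgroup.normalClosure (g '' (S : Set (Fin n)))

theorem ncl_normal (g : Fin n → G) (S : Finset (Fin n)) : (ncl g S).Normal :=
  Subgroup.normalClosure_normal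

theorem mem_ncl {g : Fin n → G} {S : Finset (Fin n)} {a : Fin n} (ha : a ∈ S) : g a ∈ ncl g S :=
  Subgroup.subset_normalClosure ⟨a, ha, rfl⟩

theorem ncl_mono (g : Fin n → G) {S S' : Finset (Fin n)} (h : S ⊆ S') : ncl g S ≤ ncl g S' :=
  Subgroup.normalClosure_mono (Set.image_mono h)

theorem conj_comm (δ γ : G) {x : Mt r} (h : σ γ * (σ δ⁻¹ * x * σ δ⁻¹⁻¹) = σ δ⁻¹ * x * σ δ⁻¹⁻¹ * σ γ) :
    σ (δ * γ * δ⁻¹) * x = x * σ (δ * γ * δ⁻¹) := by
  rw [inv_inv] at h
  have h1 := congrArg (fun w => σ δ * w * σ δ⁻¹) h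
  simp only [Matrix.mul_assoc, rep_mul_inv, Matrix.mul_one] at h1
  simp only [← Matrix.mul_assoc, rep_mul_inv, Matrix.one_mul] at h1
  rw [map_mul, map_mul, h1]
  simp only [Matrix.mul_assoc]

theorem ncl_comm {g : Fin n → G} {S : Finset (Fin n)} {Z : Subalgebra ℂ (Mt r)} (hZ : InvR σ Z)
    (h : ∀ a ∈ S, ∀ x ∈ Z, σ (g a) * x = x * σ (g a)) :
    ∀ γ ∈ ncl g S, ∀ x ∈ Z, σ γ * x = x * σ γ := by
  have hm : ∀ γ, γ ∈ (⨅ x : Z, stabR σ x.val) ↔ ∀ x ∈ Z, σ γ * x = x * σ γ := fun γ => by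
    rw [Subgroup.mem_iInf]
    exact ⟨fun H x hx => H ⟨x, hx⟩, fun H x => H x.val x.2⟩
  have hn : (⨅ x : Z, stabR σ x.val).Normal := ⟨fun γ hγ δ => (hm _).2 fun x hx =>
    conj_comm δ γ ((hm γ).1 hγ _ (hZ δ⁻¹ x hx))⟩
  intro γ hγ
  refine (hm γ).1 (Subgroup.normalClosure_le_normal ?_ hγ)
  rintro _ ⟨a, ha, rfl⟩
  exact (hm _).2 (h a ha)

theorem sp_sub (N : Subgroup G) {H : Subgroup N} {K : Subgroup G} (h : ∀ y ∈ H, y.val ∈ K) :
    spR (σ.comp N.subtype) H ≤ spR σ K :=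
  Submodule.span_mono (by
    rintro _ ⟨y, hy, rfl⟩
    exact ⟨y.val, h y hy, rfl⟩)

/-- The smallest span of a subgroup of finite index of a normal subgroup. -/
theorem exists_coreN (σ : G →* Mt r) (N : Subgroup G) [hN : N.Normal] :
    ∃ (B : Subalgebra ℂ (Mt r)) (H : Subgroup G), InvR σ B ∧ (∀ x ∈ B, x ∈ spR σ N) ∧ H.Normal ∧
      H ≤ N ∧ (H.subgroupOf N).FiniteIndex ∧ (∀ γ ∈ H, σ γ ∈ B) ∧
      ∀ H' : Subgroup G, H'.FiniteIndex → ∀ x ∈ B, x ∈ spR σ H' := by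
  obtain ⟨H₀, -, h1, h2⟩ := exists_coreR (σ.comp N.subtype)
  obtain ⟨B, hB⟩ := spR_alg (σ.comp N.subtype) H₀
  have hBi : InvR σ B := by
    intro γ x hx
    have h3 : (H₀.comap (MulAut.conjNormal γ : N ≃* N).toMonoidHom).FiniteIndex :=
      ⟨by
        rw [Subgroup.index_comap_of_surjective _
          (f := (MulAut.conjNormal γ : N ≃* N).toMonoidHom) (MulAut.conjNormal γ : N ≃* N).surjective]
        exact h1.index_ne_zero⟩
    have h4 := h2 _ h3 ((hB x).1 hx)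
    rw [hB]
    clear hx
    induction h4 using Submodule.span_induction with
    | mem y hy =>
      obtain ⟨a, ha, rfl⟩ := hy
      refine Submodule.subset_span ⟨MulAut.conjNormal γ a, ha, ?_⟩
      change σ (γ * a.val * γ⁻¹) = σ γ * σ a.val * σ γ⁻¹
      rw [map_mul, map_mul]
    | zero => rw [mul_zero, zero_mul]; exact zero_mem _
    | add y z _ _ k1 k2 => rw [mul_add, add_mul]; exact add_mem k1 k2
    | smul c y _ k => rw [mul_smul_comm, smul_mul_assoc]; exact Submodule.smul_mem _ c k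
  let K : Subgroup G :=
    { carrier := {γ | σ γ ∈ B ∧ σ γ⁻¹ ∈ B}
      one_mem' := by
        change σ 1 ∈ B ∧ σ 1⁻¹ ∈ B
        rw [inv_one, map_one]
        exact ⟨B.one_mem, B.one_mem⟩
      mul_mem' := fun {a b} ha hb => ⟨by
        rw [map_mul]
        exact B.mul_mem ha.1 hb.1, by
        rw [_root_.mul_inv_rev, map_mul]
        exact B.mul_mem hb.2 ha.2⟩
      inv_mem' := fun {a} ha => ⟨ha.2, by
        rw [inv_inv]
        exact ha.1⟩ }
  have hK : K.Normal := ⟨fun γ hγ δ => ⟨by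
    rw [map_mul, map_mul]
    exact hBi δ _ hγ.1, by
    rw [conj_inv, map_mul, map_mul]
    exact hBi δ _ hγ.2⟩⟩
  refine ⟨B, N ⊓ K, hBi, fun x hx => sp_sub N (fun y _ => y.2) ((hB x).1 hx), inferInstance,
    inf_le_left, Subgroup.finiteIndex_of_le (H := H₀) fun y hy => ⟨y.2, ?_, ?_⟩,
    fun γ hγ => hγ.2.1, fun H' hH' x hx =>
      sp_sub N (fun y hy => hy) (h2 (H'.subgroupOf N) inferInstance ((hB x).1 hx))⟩
  · exact (hB _).2 (burn_mem (σ.comp N.subtype) hy)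
  · exact (hB _).2 (burn_mem (σ.comp N.subtype) (H₀.inv_mem hy))

theorem tor_finH [Group.FG G] (hi : Function.Injective σ) (H : Subgroup G)
    {d : ℕ} (e : Fin d → Mt r) (h0 : ∀ i, e i ≠ 0) (h1 : ∑ i, e i = 1)
    (h : ∀ γ ∈ H, ∀ i, ∃ c : ℂ, IsOfFinOrder c ∧ σ γ * e i = c • e i) : Finite H := by
  obtain ⟨E, hE, hx⟩ := exists_expo σ
  choose c hc using h
  have hfin : {z : ℂ | z ^ E = 1}.Finite :=
    (Polynomial.nthRoots E (1 : ℂ)).toFinset.finite_toSet.subset fun z hz => by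
      simpa [Polynomial.mem_nthRoots hE] using hz
  have := hfin.to_subtype
  let f : H → Fin d → {z : ℂ | z ^ E = 1} := fun γ i =>
    ⟨c γ γ.2 i, hx γ _ (tor_eig (h0 i) (hc γ γ.2 i).2).2 (hc γ γ.2 i).1⟩
  have hs : ∀ γ : H, σ γ = ∑ i, (f γ i : ℂ) • e i := fun γ => by
    rw [← Matrix.mul_one (σ γ), ← h1, Matrix.mul_sum]
    exact Finset.sum_congr rfl fun i _ => (hc γ γ.2 i).2
  exact Finite.of_injective f fun a b hab => Subtype.ext (hi (by rw [hs a, hs b, hab]))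

/-- The determinant on the range of `z`, with its eigenvalues. -/
theorem exists_detE (σ : G →* Mt r) {z : Mt r} (hz : z ≠ 0) :
    ∃ (δ : stabR σ z →* ℂˣ) (m : ℕ), 0 < m ∧
      (∀ γ : stabR σ z, QU (σ γ) → IsOfFinOrder (δ γ)) ∧
      ∀ γ : stabR σ z, ∃ w : Fin m → ℂ, (δ γ : ℂ) = ∏ j, w j ∧
        ∀ j, ∃ u, z *ᵥ u ≠ 0 ∧ σ γ *ᵥ (z *ᵥ u) = w j • (z *ᵥ u) := by
  have hU : ∀ γ : stabR σ z, ∀ v ∈ LinearMap.range (toLin' z),
      toLin' (σ γ) v ∈ LinearMap.range (toLin' z) := by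
    rintro γ _ ⟨w, rfl⟩
    refine ⟨σ γ *ᵥ w, ?_⟩
    rw [toLin'_apply, toLin'_apply, toLin'_apply, mulVec_mulVec, mulVec_mulVec, mem_stabR.1 γ.2]
  let ρ : stabR σ z →* Module.End ℂ (LinearMap.range (toLin' z)) :=
    { toFun := fun γ => (toLin' (σ γ)).restrict (hU γ)
      map_one' := by
        ext v i
        simp
      map_mul' := fun x y => by
        ext v i
        simp }
  refine ⟨(LinearMap.det.comp ρ).toHomUnits, Module.finrank ℂ (LinearMap.range (toLin' z)), ?_,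
    fun γ ⟨E, hE, k, hk⟩ => Units.isOfFinOrder_val.1 ?_, fun γ => ?_⟩
  · rw [Nat.pos_iff_ne_zero, Ne, Submodule.finrank_eq_zero, LinearMap.range_eq_bot,
      LinearEquiv.map_eq_zero_iff]
    exact hz
  · have h1 : (ρ γ ^ E - 1) ^ k = 0 := LinearMap.ext fun v => Subtype.ext (by
      rw [aq1_res (g := σ γ ^ E - 1) (fun w => by
        rw [LinearMap.sub_apply, Submodule.coe_sub, aq1_res (g := σ γ) (fun _ => rfl), sub_mulVec,
          one_mulVec, Module.End.one_apply]), hk, zero_mulVec]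
      rfl)
    exact aq1_det hE h1
  · obtain ⟨w, -, w2, w3⟩ := exists_eig (LinearMap.toMatrix
      (Module.finBasis ℂ (LinearMap.range (toLin' z)))
      (Module.finBasis ℂ (LinearMap.range (toLin' z))) (ρ γ))
    refine ⟨w, ?_, fun j => ?_⟩
    · rw [MonoidHom.coe_toHomUnits, MonoidHom.comp_apply, ← w2, LinearMap.det_toMatrix]
    · have h1 := w3 j
      rw [LinearMap.spectrum_toMatrix, ← Module.End.hasEigenvalue_iff_mem_spectrum] at h1
      obtain ⟨⟨_, u, rfl⟩, hu⟩ := h1.exists_hasEigenvector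
      refine ⟨u, fun h => hu.2 (Subtype.ext h), ?_⟩
      exact congrArg Subtype.val hu.apply_eq_smul

theorem aeval_eig {x : Mt r} {u : Fin r → ℂ} {μ : ℂ} (h : x *ᵥ u = μ • u) (p : ℂ[X]) :
    aeval x p *ᵥ u = p.eval μ • u := by
  have h1 : ∀ k : ℕ, x ^ k *ᵥ u = μ ^ k • u := fun k => by
    induction k with
    | zero => simp
    | succ k ih => rw [pow_succ, ← mulVec_mulVec, h, mulVec_smul, ih, smul_smul, pow_succ']
  induction p using Polynomial.induction_on' with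
  | add p q hp hq => rw [map_add, add_mulVec, hp, hq, eval_add, add_smul]
  | monomial k a =>
    rw [aeval_monomial, eval_monomial, Algebra.algebraMap_eq_smul_one, smul_mul_assoc, one_mul,
      smul_mulVec, h1, smul_smul]

/-- The eigenvalues of `x` on the range of a combination of eigenmatrices. -/
theorem eig_span {x z : Mt r} {S : Set (Mt r)} {T : Set ℂ} (hS : ∀ f ∈ S, ∃ c ∈ T, x * f = c • f)
    (hz : z ∈ Submodule.span ℂ S) {u : Fin r → ℂ} {μ : ℂ} (h0 : z *ᵥ u ≠ 0)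
    (h : x *ᵥ (z *ᵥ u) = μ • (z *ᵥ u)) : μ ∈ T := by
  have key : ∃ p : ℂ[X], (∀ c, p.eval c = 0 → c ∈ T) ∧ aeval x p * z = 0 := by
    clear h0 h
    induction hz using Submodule.span_induction with
    | mem f hf =>
      obtain ⟨c, hc, e⟩ := hS f hf
      refine ⟨X - C c, fun d hd => ?_, ?_⟩
      · rw [eval_sub, eval_X, eval_C, sub_eq_zero] at hd
        rwa [hd]
      · rw [map_sub, aeval_X, aeval_C, Algebra.algebraMap_eq_smul_one, sub_mul, smul_mul_assoc,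
          one_mul, e, sub_self]
    | zero => exact ⟨1, fun c hc => by simp at hc, mul_zero _⟩
    | add y w _ _ k1 k2 =>
      obtain ⟨p, p1, p2⟩ := k1
      obtain ⟨q, q1, q2⟩ := k2
      refine ⟨p * q, fun c hc => ?_, ?_⟩
      · rw [eval_mul, mul_eq_zero] at hc
        exact hc.elim (p1 c) (q1 c)
      · rw [mul_add]
        nth_rewrite 1 [mul_comm p q]
        rw [map_mul, map_mul, mul_assoc, mul_assoc, p2, q2, mul_zero, mul_zero, add_zero]
    | smul c y _ k =>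
      obtain ⟨p, p1, p2⟩ := k
      exact ⟨p, p1, by rw [mul_smul_comm, p2, smul_zero]⟩
  obtain ⟨p, p1, p2⟩ := key
  have h1 := aeval_eig h p
  rw [mulVec_mulVec, p2, zero_mulVec] at h1
  exact p1 μ ((smul_eq_zero.1 h1.symm).resolve_right h0)

/-- An additive character of the determinant vanishes on a normal closure of quasi-unipotent
elements. -/
theorem det_ncl {g : Fin n → G} (hq : ∀ a, QU (σ (g a))) {S : Finset (Fin n)} {z : Mt r}
    (hN : ncl g S ≤ stabR σ z) (δ : stabR σ z →* ℂˣ)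
    (hδ : ∀ γ : stabR σ z, QU (σ γ) → IsOfFinOrder (δ γ)) (v : ℂˣ →* Multiplicative ℂ)
    (γ : stabR σ z) (hγ : γ.val ∈ ncl g S) : (v (δ γ)).toAdd = 0 := by
  have h1 : ncl g S ≤ (v.comp δ).ker.map (stabR σ z).subtype := by
    refine (Subgroup.closure_le _).2 fun y hy => ?_
    have hyN : y ∈ ncl g S := Subgroup.subset_closure hy
    obtain ⟨_, ⟨a, -, rfl⟩, hc⟩ := Group.mem_conjugatesOfSet_iff.1 hy
    refine ⟨⟨y, hN hyN⟩, ?_, rfl⟩
    have h2 : QU (σ y) := QU.of_isConj (a := σ.toHomUnits y) (b := σ.toHomUnits (g a))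
      (σ.toHomUnits.map_isConj hc.symm) (hq a)
    exact toAdd_eq_zero.1 (casea_tors (v.isOfFinOrder (hδ ⟨y, hN hyN⟩ h2)))
  obtain ⟨y, hy, e⟩ := h1 hγ
  have h3 : y = γ := Subtype.ext e
  rw [← h3]
  exact toAdd_eq_zero.2 hy

end Pool.Agent.GR.NS
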