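import Pool.Agent.Lib.MP_aa40d3_nt.NP.StmtP

/-! Definitions used in the statement: analytic continuation and local monodromy. -/

open Matrix

namespace Pool.Agent.GR.NS

variable {n r : ℕ}

/-- One step of analytic continuation inside `Ω`: both pairs lie on the graph of one matrix solution
on a disc contained in `Ω`. -/
def Step (t : Fin n → ℂ) (A : Fin n → Matrix (Fin r) (Fin r) ℂ) (Ω : Set ℂ)
    (p q : ℂ × Matrix (Fin r) (Fin r) ℂ) : Prop :=
  ∃ (c : ℂ) (ρ : ℝ) (F : ℂ → Matrix (Fin r) (Fin r) ℂ), Metric.ball c ρ ⊆ Ω ∧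
    (∀ x ∈ Metric.ball c ρ, ∀ a b,
      HasDerivAt (fun y => F y a b) (((∑ i, (x - t i)⁻¹ • A i) * F x) a b) x) ∧
    p.1 ∈ Metric.ball c ρ ∧ q.1 ∈ Metric.ball c ρ ∧ F p.1 = p.2 ∧ F q.1 = q.2

/-- Analytic continuation inside `Ω` along a chain of discs. -/
def Cont (t : Fin n → ℂ) (A : Fin n → Matrix (Fin r) (Fin r) ℂ) (Ω : Set ℂ) :
    ℂ × Matrix (Fin r) (Fin r) ℂ → ℂ × Matrix (Fin r) (Fin r) ℂ → Prop :=
  Relation.ReflTransGen (Step t A Ω)

/-- The group generated by the local monodromy matrices at the points `t i`, `i ∈ S`, along all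
paths from `x₀`. -/
def LocMon (t : Fin n → ℂ) (A : Fin n → Matrix (Fin r) (Fin r) ℂ) (x₀ : ℂ) (ε : ℝ)
    (S : Finset (Fin n)) : Subgroup (Matrix (Fin r) (Fin r) ℂ)ˣ :=
  Subgroup.closure {g | ∃ i ∈ S, ∃ x Y, Cont t A {z | ∀ j, z ≠ t j} (x₀, 1) (x, Y) ∧
    Cont t A (Metric.ball (t i) ε \ {t i}) (x, Y) (x, Y * g.val)}

end Pool.Agent.GR.NS
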